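import Pool.Agent.Helper46.T5.Stmts

set_option autoImplicit false

/-!
Module COMP of the project T5 (MP_2f9829_co, blueprint of helper46): compactness of the rotation
group, and the distance from the peak to the other components of the set of maximisers.
-/

open Finset MeasureTheory Filter Topology

namespace Pool.Agent.Helper10.T5

open Pool.Agent.Helper15.T4 Pool.Agent.Helper46.T5

theorem isClosed_SO3 : IsClosed {O : M3 | SO3 O} := by
  have h1 : IsClosed {O : M3 | O * O.transpose = 1} :=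
    isClosed_eq (continuous_id.matrix_mul continuous_id.matrix_transpose) continuous_const
  have h2 : IsClosed {O : M3 | O.det = 1} :=
    isClosed_eq continuous_id.matrix_det continuous_const
  exact h1.inter h2

theorem SO3_abs_le {O : M3} (h : SO3 O) (i j : Fin 3) : O i j ∈ Set.Icc (-1 : ℝ) 1 := by
  have h1 : (O * O.transpose) i i = 1 := by rw [h.1]; simp
  rw [Matrix.mul_apply] at h1
  have h2 : O i j * O.transpose j i ≤ ∑ k, O i k * O.transpose k i :=
    Finset.single_le_sum (f := fun k => O i k * O.transpose k i)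
      (fun k _ => by rw [Matrix.transpose_apply]; exact mul_self_nonneg _) (Finset.mem_univ j)
  rw [h1, Matrix.transpose_apply] at h2
  constructor <;> nlinarith

theorem isCompact_SO3 : IsCompact {O : M3 | SO3 O} := by
  have hB : IsCompact (Set.univ.pi fun _ : Fin 3 => Set.univ.pi fun _ : Fin 3 =>
      Set.Icc (-1 : ℝ) 1) := isCompact_univ_pi fun _ => isCompact_univ_pi fun _ => isCompact_Icc
  refine IsCompact.of_isClosed_subset (s := (Set.univ.pi fun _ : Fin 3 =>
    Set.univ.pi fun _ : Fin 3 => Set.Icc (-1 : ℝ) 1 : Set M3)) hB isClosed_SO3 ?_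
  intro O hO i _ j _
  exact SO3_abs_le hO i j

theorem isCompact_SO3K (K : ℕ) : IsCompact {O : Fin K → M3 | ∀ p, SO3 (O p)} := by
  have h : {O : Fin K → M3 | ∀ p, SO3 (O p)} = Set.univ.pi fun _ : Fin K => {O : M3 | SO3 O} := by
    ext O
    simp
  rw [h]
  exact isCompact_univ_pi fun _ => isCompact_SO3

theorem continuous_pt {J : Type} {K : ℕ} (φ : Fin K × Fin 2 ≃ J) :
    Continuous (fun O : Fin K → M3 => pt φ O) := by
  refine continuous_pi fun a => ?_
  unfold pt
  refine continuous_finsetProd _ fun p _ => ?_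
  exact ((continuous_apply p).matrix_elem _ _).div_const _

theorem SO3_one : SO3 (1 : M3) := ⟨by simp, by simp⟩

/-- One component. -/
theorem comp_one (hSEP : ST_SEP) (K : ℕ) (s : ℤˣ) (π : Equiv.Perm (Fin K × Fin 2)) :
    ∃ δ : ℝ, 0 < δ ∧ ∀ O : Fin K → M3, (∀ p, SO3 (O p)) → (s = -1 ∨ ¬ Blk π) →
      δ ≤ nsq (fun a => u0 K a - ((s : ℤ) : ℝ) * pt π O a) := by
  by_cases hbad : s = -1 ∨ ¬ Blk π
  swap
  · exact ⟨1, one_pos, fun O _ h => absurd h hbad⟩
  set f : (Fin K → M3) → ℝ := fun O => nsq (fun a => u0 K a - ((s : ℤ) : ℝ) * pt π O a) with hf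
  have hfc : Continuous f := by
    rw [hf]
    unfold nsq
    refine continuous_finsetSum _ fun a _ => ?_
    exact (continuous_const.sub
      (continuous_const.mul ((continuous_apply a).comp (continuous_pt π)))).pow 2
  have hne : {O : Fin K → M3 | ∀ p, SO3 (O p)}.Nonempty := ⟨fun _ => 1, fun _ => SO3_one⟩
  obtain ⟨O₀, hO₀, hmin⟩ := (isCompact_SO3K K).exists_isMinOn hne hfc.continuousOn
  refine ⟨f O₀, ?_, fun O hO _ => hmin hO⟩
  have h0 : 0 ≤ f O₀ := Finset.sum_nonneg fun i _ => sq_nonneg _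
  rcases h0.lt_or_eq with h | h
  · exact h
  exfalso
  have hz : ∀ a, u0 K a = ((s : ℤ) : ℝ) * pt π O₀ a := by
    intro a
    have h1 : ∑ a, (u0 K a - ((s : ℤ) : ℝ) * pt π O₀ a) ^ 2 = 0 := h.symm
    have h2 := (Finset.sum_eq_zero_iff_of_nonneg (fun i _ => sq_nonneg _)).mp h1 a
      (Finset.mem_univ a)
    have h3 := pow_eq_zero_iff (two_ne_zero) |>.mp h2
    linarith
  have hs : ((s : ℤ) : ℝ) = 1 ∨ ((s : ℤ) : ℝ) = -1 := by
    rcases Int.units_eq_one_or s with h | h <;> simp [h]
  obtain ⟨h1, e, fl, h2, -⟩ := hSEP K (Fin K × Fin 2) (Equiv.refl _) π (fun _ => 1) O₀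
    ((s : ℤ) : ℝ) (fun _ => SO3_one) hO₀ hs hz
  rcases hbad with hb | hb
  · rw [hb] at h1
    norm_num at h1
  · apply hb
    intro p
    have key : ∀ j : Fin 2, (π (p, j)).1 = e.symm p := by
      intro j
      have h3 := h2 (e.symm p) (j - fl (e.symm p))
      rw [Equiv.apply_symm_apply] at h3
      rw [sub_add_cancel] at h3
      rw [← h3]
      rfl
    rw [key 0, key 1]

theorem st_COMP (hSEP : ST_SEP) : ST_COMP := by
  intro K
  choose δ hδ hδ' using fun x : ℤˣ × Equiv.Perm (Fin K × Fin 2) => comp_one hSEP K x.1 x.2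
  obtain ⟨x₀, -, hx₀⟩ := Finset.exists_min_image (Finset.univ) δ
    ⟨((1 : ℤˣ), (1 : Equiv.Perm (Fin K × Fin 2))), Finset.mem_univ _⟩
  refine ⟨δ x₀, hδ x₀, fun s π O hO hb => ?_⟩
  exact (hx₀ (s, π) (Finset.mem_univ _)).trans (hδ' (s, π) O hO hb)

end Pool.Agent.Helper10.T5
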