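import Pool.Agent.Helper10.T5.COMP

set_option autoImplicit false

/-!
Module CONN of the project T5 (MP_2f9829_co, blueprint of helper46): a continuous family of products
over matchings uses one matching. The rotation group is the closure of the image of the Cayley chart.
-/

open Finset MeasureTheory Filter Topology

namespace Pool.Agent.Helper10.T5

open Pool.Agent.Helper15.T4 Pool.Agent.Helper46.T5

/-! ### The Cayley chart -/

theorem nsq3 (v : Fin 3 → ℝ) : nsq v = v 0 ^ 2 + v 1 ^ 2 + v 2 ^ 2 := by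
  unfold nsq
  rw [Fin.sum_univ_three]

theorem Cay_apply (v : Fin 3 → ℝ) (i j : Fin 3) : Cay v i j =
    (1 + nsq v)⁻¹ * ((1 - nsq v) * (if i = j then 1 else 0) + 2 * (v i * v j) +
      2 * skew v i j) := by
  unfold Cay
  simp only [Matrix.smul_apply, Matrix.add_apply, Matrix.vecMulVec_apply, Matrix.one_apply,
    smul_eq_mul]

theorem continuous_Cay : Continuous Cay := by
  refine continuous_pi fun i => continuous_pi fun j => ?_
  have h : (fun v => Cay v i j) = fun v : Fin 3 → ℝ =>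
      (1 + nsq v)⁻¹ * ((1 - nsq v) * (if i = j then 1 else 0) + 2 * (v i * v j) +
      2 * skew v i j) := by
    funext v
    exact Cay_apply v i j
  rw [h]
  have h1 : Continuous (fun v : Fin 3 → ℝ => nsq v) := by
    unfold nsq
    fun_prop
  have h2 : Continuous (fun v : Fin 3 → ℝ => skew v i j) := by
    fin_cases i <;> fin_cases j <;> simp [skew] <;> fun_prop
  refine Continuous.mul (Continuous.inv₀ (by fun_prop) ?_) (by fun_prop)
  intro v
  have : 0 ≤ nsq v := Finset.sum_nonneg fun i _ => sq_nonneg _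
  positivity

theorem Cay_SO3 (v : Fin 3 → ℝ) : SO3 (Cay v) := by
  have hn : (1 + nsq v) ≠ 0 := by
    have : 0 ≤ nsq v := Finset.sum_nonneg fun i _ => sq_nonneg _
    positivity
  rw [nsq3] at hn
  constructor
  · ext i j
    rw [Matrix.mul_apply, Fin.sum_univ_three]
    simp only [Matrix.transpose_apply, Cay_apply, nsq3]
    fin_cases i <;> fin_cases j <;> simp [skew] <;> field_simp <;> ring
  · rw [Matrix.det_fin_three]
    simp only [Cay_apply, nsq3]
    simp [skew]
    field_simp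
    ring

/-- The trace. -/
theorem tr3 (O : M3) : O.trace = O 0 0 + O 1 1 + O 2 2 := by
  rw [Matrix.trace_fin_three]

/-- The entries of a rotation are its cofactors. -/
theorem SO3_adj {O : M3} (h : SO3 O) : O.adjugate = O.transpose := by
  have h1 : O.transpose * O = 1 := mul_eq_one_comm.mp h.1
  calc O.adjugate = O.transpose * O * O.adjugate := by rw [h1, Matrix.one_mul]
    _ = O.transpose * (O * O.adjugate) := by rw [Matrix.mul_assoc]
    _ = O.transpose := by rw [Matrix.mul_adjugate, h.2, one_smul, Matrix.mul_one]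

theorem SO3_row {O : M3} (h : SO3 O) (i j : Fin 3) :
    O i 0 * O j 0 + O i 1 * O j 1 + O i 2 * O j 2 = if i = j then 1 else 0 := by
  have h1 := congrFun (congrFun h.1 i) j
  rw [Matrix.mul_apply, Fin.sum_univ_three, Matrix.one_apply] at h1
  simpa only [Matrix.transpose_apply] using h1

theorem SO3_col {O : M3} (h : SO3 O) (i j : Fin 3) :
    O 0 i * O 0 j + O 1 i * O 1 j + O 2 i * O 2 j = if i = j then 1 else 0 := by
  have h1 := congrFun (congrFun (mul_eq_one_comm.mp h.1 : O.transpose * O = 1) i) j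
  rw [Matrix.mul_apply, Fin.sum_univ_three, Matrix.one_apply] at h1
  simpa only [Matrix.transpose_apply] using h1

theorem SO3_cof {O : M3} (h : SO3 O) (i j : Fin 3) : O.adjugate i j = O j i := by
  rw [SO3_adj h, Matrix.transpose_apply]

/-- The identity `(1 + t) (O + Oᵀ) = (t ^ 2 - 1) 1 + w wᵀ`. -/
theorem SO3_key {O : M3} (h : SO3 O) :
    (1 + (O 0 0 + O 1 1 + O 2 2)) * (O 0 1 + O 1 0) = (O 2 1 - O 1 2) * (O 0 2 - O 2 0) ∧
    (1 + (O 0 0 + O 1 1 + O 2 2)) * (O 0 2 + O 2 0) = (O 2 1 - O 1 2) * (O 1 0 - O 0 1) ∧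
    (1 + (O 0 0 + O 1 1 + O 2 2)) * (O 1 2 + O 2 1) = (O 0 2 - O 2 0) * (O 1 0 - O 0 1) ∧
    (1 + (O 0 0 + O 1 1 + O 2 2)) * (2 * O 0 0) =
      (O 0 0 + O 1 1 + O 2 2) ^ 2 - 1 + (O 2 1 - O 1 2) ^ 2 ∧
    (1 + (O 0 0 + O 1 1 + O 2 2)) * (2 * O 1 1) =
      (O 0 0 + O 1 1 + O 2 2) ^ 2 - 1 + (O 0 2 - O 2 0) ^ 2 ∧
    (1 + (O 0 0 + O 1 1 + O 2 2)) * (2 * O 2 2) =
      (O 0 0 + O 1 1 + O 2 2) ^ 2 - 1 + (O 1 0 - O 0 1) ^ 2 := by
  have r00 := SO3_row h 0 0
  have r11 := SO3_row h 1 1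
  have r22 := SO3_row h 2 2
  have r01 := SO3_row h 0 1
  have r02 := SO3_row h 0 2
  have r12 := SO3_row h 1 2
  have c00 := SO3_col h 0 0
  have c11 := SO3_col h 1 1
  have c22 := SO3_col h 2 2
  have c01 := SO3_col h 0 1
  have c02 := SO3_col h 0 2
  have c12 := SO3_col h 1 2
  have a00 := SO3_cof h 0 0
  have a01 := SO3_cof h 0 1
  have a02 := SO3_cof h 0 2
  have a10 := SO3_cof h 1 0
  have a11 := SO3_cof h 1 1
  have a12 := SO3_cof h 1 2
  have a20 := SO3_cof h 2 0
  have a21 := SO3_cof h 2 1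
  have a22 := SO3_cof h 2 2
  rw [Matrix.adjugate_fin_three] at a00 a01 a02 a10 a11 a12 a20 a21 a22
  simp at r00 r11 r22 r01 r02 r12 c00 c11 c22 c01 c02 c12 a00 a01 a02 a10 a11 a12 a20 a21 a22
  refine ⟨?_, ?_, ?_, ?_, ?_, ?_⟩
  · linear_combination r01 + c01 - a01 - a10
  · linear_combination r02 + c02 - a02 - a20
  · linear_combination r12 + c12 - a12 - a21
  · linear_combination c00 - r11 - r22 - 2 * a00
  · linear_combination c11 - r00 - r22 - 2 * a11
  · linear_combination c22 - r00 - r11 - 2 * a22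

/-- Rotations whose trace is not `-1` are in the chart. -/
theorem Cay_surj {O : M3} (h : SO3 O) (ht : 1 + (O 0 0 + O 1 1 + O 2 2) ≠ 0) :
    ∃ v, Cay v = O := by
  obtain ⟨k01, k02, k12, k00, k11, k22⟩ := SO3_key h
  set t : ℝ := O 0 0 + O 1 1 + O 2 2 with htd
  set v : Fin 3 → ℝ := ![(O 2 1 - O 1 2) / (1 + t), (O 0 2 - O 2 0) / (1 + t),
    (O 1 0 - O 0 1) / (1 + t)] with hv
  have hn : (1 + t) * nsq v = 3 - t := by
    rw [nsq3]
    simp only [hv, Matrix.cons_val_zero, Matrix.cons_val_one, Matrix.cons_val]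
    field_simp
    rw [htd] at k00 k11 k22 ⊢
    linear_combination (-1 : ℝ) * (k00 + k11 + k22)
  have hn1 : (1 + nsq v)⁻¹ = (1 + t) / 4 := by
    have h4 : (1 + t) * (1 + nsq v) = 4 := by linear_combination hn
    have hne : (1 + nsq v) ≠ 0 := by
      intro h0
      rw [h0] at h4
      norm_num at h4
    field_simp
    linear_combination -h4
  refine ⟨v, ?_⟩
  have hent : ∀ i j, Cay v i j = (t - 1) / 2 * (if i = j then 1 else 0) +
      (1 + t) * (v i * v j) / 2 + (1 + t) * skew v i j / 2 := by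
    intro i j
    rw [Cay_apply, hn1]
    linear_combination (-(if i = j then (1 : ℝ) else 0) / 4) * hn
  ext i j
  rw [hent]
  have e0 : v 0 = (O 2 1 - O 1 2) / (1 + t) := by simp [hv]
  have e1 : v 1 = (O 0 2 - O 2 0) / (1 + t) := by simp [hv]
  have e2 : v 2 = (O 1 0 - O 0 1) / (1 + t) := by simp [hv]
  fin_cases i <;> fin_cases j <;> simp [skew, e0, e1, e2] <;> field_simp
  · linear_combination (-1 : ℝ) * k00
  · linear_combination (-1 : ℝ) * k01
  · linear_combination (-1 : ℝ) * k02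
  · linear_combination (-1 : ℝ) * k01
  · linear_combination (-1 : ℝ) * k11
  · linear_combination (-1 : ℝ) * k12
  · linear_combination (-1 : ℝ) * k02
  · linear_combination (-1 : ℝ) * k12
  · linear_combination (-1 : ℝ) * k22

theorem SO3_mul {A B : M3} (hA : SO3 A) (hB : SO3 B) : SO3 (A * B) := by
  constructor
  · rw [Matrix.transpose_mul, Matrix.mul_assoc, ← Matrix.mul_assoc B, hB.1, Matrix.one_mul, hA.1]
  · rw [Matrix.det_mul, hA.2, hB.2, one_mul]

theorem half_symm {O : M3} (h : SO3 O) (ht : O 0 0 + O 1 1 + O 2 2 = -1) :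
    O 2 1 = O 1 2 ∧ O 0 2 = O 2 0 ∧ O 1 0 = O 0 1 := by
  obtain ⟨-, -, -, k00, k11, k22⟩ := SO3_key h
  rw [ht] at k00 k11 k22
  have h0 : (O 2 1 - O 1 2) ^ 2 = 0 := by linarith
  have h1 : (O 0 2 - O 2 0) ^ 2 = 0 := by linarith
  have h2 : (O 1 0 - O 0 1) ^ 2 = 0 := by linarith
  have g0 := (pow_eq_zero_iff two_ne_zero).mp h0
  have g1 := (pow_eq_zero_iff two_ne_zero).mp h1
  have g2 := (pow_eq_zero_iff two_ne_zero).mp h2
  exact ⟨by linarith, by linarith, by linarith⟩

theorem half_trace {O : M3} (h : SO3 O) (ht : O 0 0 + O 1 1 + O 2 2 = -1) (i : Fin 3) (e : ℝ) :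
    (1 + e ^ 2) * (1 + ((O * Cay (Pi.single i e)) 0 0 + (O * Cay (Pi.single i e)) 1 1 +
      (O * Cay (Pi.single i e)) 2 2)) = 2 * e ^ 2 * (1 + O i i) := by
  obtain ⟨s0, s1, s2⟩ := half_symm h ht
  have hn : (1 + e ^ 2) ≠ 0 := by positivity
  have hn2 : nsq (Pi.single i e : Fin 3 → ℝ) = e ^ 2 := by
    rw [nsq3]
    fin_cases i <;> simp
  simp only [Matrix.mul_apply, Fin.sum_univ_three, Cay_apply, hn2]
  fin_cases i <;> simp [skew] <;> field_simp
  · linear_combination (1 - e ^ 2) * ht - 2 * e * s0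
  · linear_combination (1 - e ^ 2) * ht - 2 * e * s1
  · linear_combination (1 - e ^ 2) * ht - 2 * e * s2

theorem Cay_zero : Cay 0 = 1 := by
  ext i j
  rw [Cay_apply, nsq3]
  fin_cases i <;> fin_cases j <;> simp [skew]

/-- A closed set of matrices that contains the chart contains the rotations. -/
theorem SO3_of_closed {B : Set M3} (hB : IsClosed B) (hC : ∀ v, Cay v ∈ B) {O : M3} (h : SO3 O) :
    O ∈ B := by
  by_cases ht : 1 + (O 0 0 + O 1 1 + O 2 2) = 0
  swap
  · obtain ⟨v, hv⟩ := Cay_surj h ht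
    rw [← hv]
    exact hC v
  have ht' : O 0 0 + O 1 1 + O 2 2 = -1 := by linarith
  obtain ⟨i, hi⟩ : ∃ i : Fin 3, 1 + O i i ≠ 0 := by
    by_contra hcon
    push Not at hcon
    have := hcon 0
    have := hcon 1
    have := hcon 2
    linarith
  set u : ℕ → M3 := fun n => O * Cay (Pi.single i (1 / ((n : ℝ) + 1))) with hu
  have hmem : ∀ n, u n ∈ B := by
    intro n
    have hS : SO3 (u n) := SO3_mul h (Cay_SO3 _)
    have hpos : (0 : ℝ) < 1 / ((n : ℝ) + 1) := by positivity
    have hk := half_trace h ht' i (1 / ((n : ℝ) + 1))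
    have hne : 1 + (u n 0 0 + u n 1 1 + u n 2 2) ≠ 0 := by
      intro h0
      rw [hu] at h0
      simp only at h0
      rw [h0, mul_zero] at hk
      have : 2 * (1 / ((n : ℝ) + 1)) ^ 2 * (1 + O i i) ≠ 0 :=
        mul_ne_zero (by positivity) hi
      exact this hk.symm
    obtain ⟨v, hv⟩ := Cay_surj hS hne
    rw [← hv]
    exact hC v
  have hlim : Tendsto u atTop (𝓝 (O * Cay 0)) := by
    have h1 : Tendsto (fun n : ℕ => (Pi.single i (1 / ((n : ℝ) + 1)) : Fin 3 → ℝ)) atTop (𝓝 0) := by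
      have h2 : Continuous (fun e : ℝ => (Pi.single i e : Fin 3 → ℝ)) := by
        refine continuous_pi fun j => ?_
        by_cases hj : j = i
        · subst hj
          simp only [Pi.single_eq_same]
          exact continuous_id
        · simp only [Pi.single_eq_of_ne hj]
          exact continuous_const
      have h3 := (h2.tendsto 0).comp tendsto_one_div_add_atTop_nhds_zero_nat
      rw [Pi.single_zero] at h3
      exact h3
    have h4 : Continuous (fun v => O * Cay v) := continuous_const.matrix_mul continuous_Cay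
    exact (h4.tendsto 0).comp h1
  rw [Cay_zero, Matrix.mul_one] at hlim
  exact hB.mem_of_tendsto hlim (Eventually.of_forall hmem)

/-- Change of the matching. -/
theorem pt_rematch {J : Type} {K : ℕ} (φ φ' : Fin K × Fin 2 ≃ J) (e : Equiv.Perm (Fin K))
    (fl : Fin K → Fin 2) (hm : ∀ p i, φ (p, i) = φ' (e p, i + fl p)) (W : Fin K → M3) :
    pt φ W = pt φ' (fun p => if fl (e.symm p) = 0 then W (e.symm p)
      else (W (e.symm p)).transpose) := by
  funext a
  unfold pt
  rw [← Equiv.prod_comp e (fun p => (if fl (e.symm p) = 0 then W (e.symm p)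
      else (W (e.symm p)).transpose) (a (φ' (p, 0))) (a (φ' (p, 1))) / Real.sqrt 3)]
  refine Finset.prod_congr rfl fun p _ => ?_
  rw [Equiv.symm_apply_apply, hm p 0, hm p 1]
  have h2 : fl p = 0 ∨ fl p = 1 := by
    generalize fl p = c
    revert c
    decide
  rcases h2 with h2 | h2
  · rw [h2]
    simp
  · rw [h2]
    have h3 : (1 : Fin 2) + 1 = 0 := rfl
    simp [h3, Matrix.transpose_apply]

theorem SO3_transpose {A : M3} (hA : SO3 A) : SO3 A.transpose := by
  constructor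
  · rw [Matrix.transpose_transpose]
    exact mul_eq_one_comm.mp hA.1
  · rw [Matrix.det_transpose, hA.2]

theorem st_CONN (hSEP : ST_SEP) : ST_CONN := by
  intro K J _ _ X hX hcov
  set S : (Fin K × Fin 2 ≃ J) → Set ((J → Fin 3) → ℝ) := fun φ =>
    (fun W : Fin K → M3 => pt φ W) '' {W | ∀ p, SO3 (W p)} with hS
  have hSc : ∀ φ, IsClosed (S φ) := fun φ =>
    ((isCompact_SO3K K).image (continuous_pt φ)).isClosed
  have hsub : ∀ φ φ', (S φ ∩ S φ').Nonempty → S φ ⊆ S φ' := by
    rintro φ φ' ⟨x, ⟨W, hW, hWx⟩, W', hW', hWx'⟩ y ⟨V, hV, rfl⟩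
    simp only at hWx hWx'
    have heq : ∀ a, pt φ W a = 1 * pt φ' W' a := by
      intro a
      rw [hWx, hWx', one_mul]
    obtain ⟨-, e, fl, hm, -⟩ := hSEP K J φ φ' W W' 1 hW hW' (Or.inl rfl) heq
    refine ⟨_, ?_, (pt_rematch φ φ' e fl hm V).symm⟩
    intro p
    simp only
    split_ifs
    · exact hV _
    · exact SO3_transpose (hV _)
  have hcov' : ∀ O, SO3 O → ∃ φ, X O ∈ S φ := by
    intro O hO
    obtain ⟨φ, W, hW, hXW⟩ := hcov O hO
    exact ⟨φ, W, hW, hXW.symm⟩
  obtain ⟨φ, hφ⟩ := hcov' (Cay 0) (Cay_SO3 0)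
  have hA : {v | X (Cay v) ∈ S φ} = Set.univ := by
    refine IsClopen.eq_univ ⟨(hSc φ).preimage (hX.comp continuous_Cay), ?_⟩ ⟨0, hφ⟩
    rw [← isClosed_compl_iff]
    have h1 : {v | X (Cay v) ∈ S φ}ᶜ =
        ⋃ φ' ∈ {φ' : Fin K × Fin 2 ≃ J | ¬ (S φ' ∩ S φ).Nonempty}, {v | X (Cay v) ∈ S φ'} := by
      ext v
      simp only [Set.mem_compl_iff, Set.mem_ofPred_eq, Set.mem_iUnion, exists_prop]
      constructor
      · intro hv
        obtain ⟨φ', hφ'⟩ := hcov' (Cay v) (Cay_SO3 v)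
        exact ⟨φ', fun hne => hv (hsub φ' φ hne hφ'), hφ'⟩
      · rintro ⟨φ', hne, hφ'⟩ hv
        exact hne ⟨_, hφ', hv⟩
    rw [h1]
    exact (Set.toFinite _).isClosed_biUnion fun φ' _ =>
      (hSc φ').preimage (hX.comp continuous_Cay)
  refine ⟨φ, fun O hO => ?_⟩
  have hmem : O ∈ {O | X O ∈ S φ} := SO3_of_closed ((hSc φ).preimage hX)
    (fun v => by
      have : v ∈ {v | X (Cay v) ∈ S φ} := by rw [hA]; trivial
      exact this) hO
  obtain ⟨W, hW, hXW⟩ := hmem
  exact ⟨W, hW, hXW.symm⟩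

end Pool.Agent.Helper10.T5
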