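import Pool.Agent.Helper46.T5.Stmts

set_option autoImplicit false

/-!
Module EXP5 of the project T5 (MP_2f9829_co, blueprint of helper46): expansion of the vertex
function at the peak.
-/

open Finset MeasureTheory Filter Topology

namespace Pool.Agent.Helper10.T5

open Pool.Agent.Helper15.T4 Pool.Agent.Helper46.T5

section Tri

variable {J : Type} [Fintype J] [DecidableEq J]

theorem TJ_add1 (x x' y z : (J → Fin 3) → ℝ) :
    TJ J (x + x') y z = TJ J x y z + TJ J x' y z := by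
  unfold TJ
  rw [← Finset.sum_add_distrib]
  refine Finset.sum_congr rfl fun a _ => ?_
  rw [← Finset.sum_add_distrib]
  refine Finset.sum_congr rfl fun b _ => ?_
  rw [← Finset.sum_add_distrib]
  refine Finset.sum_congr rfl fun c _ => ?_
  rw [Pi.add_apply]
  ring

theorem eps_swap12 (a b c : Fin 3) : eps b a c = -eps a b c := by
  revert a b c
  decide

theorem eps_swap23 (a b c : Fin 3) : eps a c b = -eps a b c := by
  revert a b c
  decide

omit [DecidableEq J] in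
theorem prod_neg_even {k : ℕ} (hJ : Fintype.card J = 2 * k) (f : J → ℝ) :
    ∏ j, -f j = ∏ j, f j := by
  rw [Finset.prod_neg]
  rw [Finset.card_univ, hJ, pow_mul]
  norm_num

theorem TJ_swap12 {k : ℕ} (hJ : Fintype.card J = 2 * k) (x y z : (J → Fin 3) → ℝ) :
    TJ J x y z = TJ J y x z := by
  unfold TJ
  rw [Finset.sum_comm]
  refine Finset.sum_congr rfl fun a _ => ?_
  refine Finset.sum_congr rfl fun b _ => ?_
  refine Finset.sum_congr rfl fun c _ => ?_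
  have h : (∏ j, ((eps (b j) (a j) (c j) : ℤ) : ℝ)) = ∏ j, ((eps (a j) (b j) (c j) : ℤ) : ℝ) := by
    rw [← prod_neg_even hJ]
    refine Finset.prod_congr rfl fun j _ => ?_
    rw [eps_swap12 (a j) (b j) (c j)]
    push_cast
    ring
  rw [h]
  ring

theorem TJ_swap23 {k : ℕ} (hJ : Fintype.card J = 2 * k) (x y z : (J → Fin 3) → ℝ) :
    TJ J x y z = TJ J x z y := by
  unfold TJ
  refine Finset.sum_congr rfl fun a _ => ?_
  rw [Finset.sum_comm]
  refine Finset.sum_congr rfl fun b _ => ?_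
  refine Finset.sum_congr rfl fun c _ => ?_
  have h : (∏ j, ((eps (a j) (c j) (b j) : ℤ) : ℝ)) = ∏ j, ((eps (a j) (b j) (c j) : ℤ) : ℝ) := by
    rw [← prod_neg_even hJ]
    refine Finset.prod_congr rfl fun j _ => ?_
    rw [eps_swap23 (a j) (b j) (c j)]
    push_cast
    ring
  rw [h]
  ring

theorem TJ_cube {k : ℕ} (hJ : Fintype.card J = 2 * k) (u h : (J → Fin 3) → ℝ) :
    TJ J (u + h) (u + h) (u + h) =
      TJ J u u u + 3 * TJ J u u h + 3 * TJ J u h h + TJ J h h h := by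
  have e2 : ∀ x y y' z : (J → Fin 3) → ℝ, TJ J x (y + y') z = TJ J x y z + TJ J x y' z := by
    intro x y y' z
    rw [TJ_swap12 hJ, TJ_add1, TJ_swap12 hJ y, TJ_swap12 hJ y']
  have e3 : ∀ x y z z' : (J → Fin 3) → ℝ, TJ J x y (z + z') = TJ J x y z + TJ J x y z' := by
    intro x y z z'
    rw [TJ_swap23 hJ, e2, TJ_swap23 hJ x z, TJ_swap23 hJ x z']
  rw [TJ_add1, e2, e2, e3, e3, e3, e3]
  have h1 : TJ J u h u = TJ J u u h := TJ_swap23 hJ u h u
  have h2 : TJ J h u u = TJ J u u h := by rw [TJ_swap12 hJ, h1]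
  have h3 : TJ J h u h = TJ J u h h := TJ_swap12 hJ h u h
  have h4 : TJ J h h u = TJ J u h h := by rw [TJ_swap23 hJ, h3]
  rw [h1, h2, h3, h4]
  ring

theorem abs_le_sqrt_nsq {ι : Type} [Fintype ι] (x : ι → ℝ) (i : ι) : |x i| ≤ Real.sqrt (nsq x) := by
  apply Real.abs_le_sqrt
  unfold nsq
  exact Finset.single_le_sum (f := fun i => x i ^ 2) (fun j _ => sq_nonneg _) (Finset.mem_univ i)

theorem TJ_bound : ∃ C : ℝ, 0 ≤ C ∧ ∀ x y z : (J → Fin 3) → ℝ,
    |TJ J x y z| ≤ C * (Real.sqrt (nsq x) * Real.sqrt (nsq y) * Real.sqrt (nsq z)) := by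
  refine ⟨∑ a : J → Fin 3, ∑ b : J → Fin 3, ∑ c : J → Fin 3,
    |∏ j, ((eps (a j) (b j) (c j) : ℤ) : ℝ)|, by positivity, ?_⟩
  intro x y z
  unfold TJ
  rw [Finset.sum_mul]
  refine (Finset.abs_sum_le_sum_abs _ _).trans (Finset.sum_le_sum fun a _ => ?_)
  rw [Finset.sum_mul]
  refine (Finset.abs_sum_le_sum_abs _ _).trans (Finset.sum_le_sum fun b _ => ?_)
  rw [Finset.sum_mul]
  refine (Finset.abs_sum_le_sum_abs _ _).trans (Finset.sum_le_sum fun c _ => ?_)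
  rw [abs_mul, abs_mul, abs_mul]
  have h1 := abs_le_sqrt_nsq x a
  have h2 := abs_le_sqrt_nsq y b
  have h3 := abs_le_sqrt_nsq z c
  calc |∏ j, ((eps (a j) (b j) (c j) : ℤ) : ℝ)| * |x a| * |y b| * |z c|
      ≤ |∏ j, ((eps (a j) (b j) (c j) : ℤ) : ℝ)| * Real.sqrt (nsq x) * Real.sqrt (nsq y) *
          Real.sqrt (nsq z) := by gcongr
    _ = _ := by ring

end Tri

theorem qq_pos : 0 < qq := by
  unfold qq
  positivity

theorem eb_zero (K : ℕ) : eb (0 : Fin K → Fin 9) = u0 K := by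
  funext a
  unfold eb u0 pt
  refine Finset.prod_congr rfl fun p _ => ?_
  have h : Em ((0 : Fin K → Fin 9) p) = (Real.sqrt 3)⁻¹ • (1 : M3) := by
    unfold Em
    simp
  rw [h]
  simp [Matrix.smul_apply, div_eq_inv_mul]
  rfl

theorem nsq_u0 (K : ℕ) : nsq (u0 K) = 1 := by
  set g : (Fin 2 → Fin 3) → ℝ := fun c => ((if c 0 = c 1 then (1 : ℝ) else 0) / Real.sqrt 3) ^ 2
    with hg
  have h : ∀ a : Fin K × Fin 2 → Fin 3, u0 K a ^ 2 =
      (fun b : Fin K → Fin 2 → Fin 3 => ∏ p : Fin K, g (b p))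
        ((Equiv.curry (Fin K) (Fin 2) (Fin 3)) a) := by
    intro a
    unfold u0 pt
    rw [← Finset.prod_pow]
    refine Finset.prod_congr rfl fun p _ => ?_
    simp only [hg, Matrix.one_apply, Equiv.refl_apply]
    rfl
  unfold nsq
  rw [Finset.sum_congr rfl fun a _ => h a]
  rw [Equiv.sum_comp (Equiv.curry (Fin K) (Fin 2) (Fin 3))
    (fun b : Fin K → Fin 2 → Fin 3 => ∏ p : Fin K, g (b p))]
  have hps : ∑ b : Fin K → Fin 2 → Fin 3, ∏ p : Fin K, g (b p) =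
      ∏ _p : Fin K, ∑ c : Fin 2 → Fin 3, g c := by
    rw [Finset.prod_univ_sum, Fintype.piFinset_univ]
  rw [hps]
  apply Finset.prod_eq_one
  intro p _
  have h2 : ∀ f : (Fin 2 → Fin 3) → ℝ, ∑ c, f c = ∑ i : Fin 3, ∑ j : Fin 3, f ![i, j] := by
    intro f
    rw [← Finset.sum_product']
    refine Finset.sum_bij' (fun c _ => (c 0, c 1)) (fun q _ => ![q.1, q.2]) ?_ ?_ ?_ ?_ ?_
    · intro c _
      simp
    · intro q _
      simp
    · intro c _
      funext i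
      fin_cases i <;> rfl
    · intro q _
      rfl
    · intro c _
      congr 1
      funext i
      fin_cases i <;> rfl
  rw [h2]
  have h3 : Real.sqrt 3 ^ 2 = 3 := Real.sq_sqrt (by norm_num)
  simp [Fin.sum_univ_three, hg, h3, div_pow]
  norm_num

theorem st_EXP5 (hEBT : ST_EBT) : ST_EXP5 := by
  intro K
  have hJ : Fintype.card (Fin K × Fin 2) = 2 * K := by
    simp [mul_comm]
  obtain ⟨C, hC, hTb⟩ := TJ_bound (J := Fin K × Fin 2)
  set q : ℝ := qq ^ K with hqdef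
  have hq : 0 < q := pow_pos qq_pos K
  have hT : ∀ h, TJ (Fin K × Fin 2) (u0 K) (u0 K) h = q * ip (u0 K) h := by
    intro h
    have h1 := hEBT K 0 h
    rw [eb_zero] at h1
    rw [h1]
    have h2 : ∏ p : Fin K, mu ((0 : Fin K → Fin 9) p) = 1 := by
      apply Finset.prod_eq_one
      intro p _
      unfold mu
      simp
    rw [h2, mul_one]
  have hu : nsq (u0 K) = 1 := nsq_u0 K
  have huu : ip (u0 K) (u0 K) = 1 := by
    rw [← hu]
    unfold ip nsq
    exact Finset.sum_congr rfl fun i _ => (sq _).symm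
  have hPu : TJ (Fin K × Fin 2) (u0 K) (u0 K) (u0 K) = q := by
    rw [hT, huu, mul_one]
  set K0 : ℝ := Real.exp (9 / 2) with hK0
  have hK0p : 0 < K0 := Real.exp_pos _
  refine ⟨9 / 8 + 3 / 2 * (9 / 2) ^ 2 + 4 * (K0 * (9 / 2) ^ 3) + 3 * (C / q) * (9 / 2 * K0) +
    C / q * K0, ?_⟩
  intro h hh
  have hnn : ∀ x : (Fin K × Fin 2 → Fin 3) → ℝ, 0 ≤ nsq x :=
    fun x => Finset.sum_nonneg fun i _ => sq_nonneg _
  set N : ℝ := Real.sqrt (nsq h) with hN
  have hN0 : 0 ≤ N := Real.sqrt_nonneg _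
  have hN2 : N ^ 2 = nsq h := Real.sq_sqrt (hnn h)
  have hN1 : N ≤ 1 := by
    rw [hN]
    exact Real.sqrt_le_one.mpr hh
  set a : ℝ := ip (u0 K) h with ha
  have haN : |a| ≤ N := by
    apply Real.abs_le_sqrt
    have h1 := Finset.sum_mul_sq_le_sq_mul_sq (Finset.univ) (u0 K) h
    have h2 : ∑ i, u0 K i ^ 2 = 1 := hu
    rw [h2, one_mul] at h1
    exact h1
  have hnuh : nsq (u0 K + h) = 1 + 2 * a + N ^ 2 := by
    rw [hN2, ← hu, ha]
    unfold nsq ip
    rw [Finset.mul_sum, ← Finset.sum_add_distrib, ← Finset.sum_add_distrib]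
    exact Finset.sum_congr rfl fun i _ => by rw [Pi.add_apply]; ring
  have hP : TJ (Fin K × Fin 2) (u0 K + h) (u0 K + h) (u0 K + h) =
      q + 3 * (q * a) + 3 * TJ (Fin K × Fin 2) (u0 K) h h + TJ (Fin K × Fin 2) h h h := by
    rw [TJ_cube hJ, hPu, hT h, ← ha]
  set y : ℝ := -3 * a - 3 / 2 * N ^ 2 with hy
  have hfv : fv K (fun b => u0 K b + h b) =
      TJ (Fin K × Fin 2) (u0 K + h) (u0 K + h) (u0 K + h) * Real.exp y / q := by
    have e : (fun b => u0 K b + h b) = u0 K + h := rfl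
    rw [e]
    unfold fv
    have hE : -(3 / 2) * (nsq (u0 K + h) - 1) = y := by
      rw [hnuh, hy]
      ring
    rw [hE]
  rw [hfv]
  have hNN : N ^ 2 ≤ N := by nlinarith
  have hyN : |y| ≤ 9 / 2 * N := by
    rw [abs_le] at haN ⊢
    constructor <;> nlinarith [haN.1, haN.2]
  have hy9 : |y| ≤ 9 / 2 := by nlinarith
  have hexp : Real.exp |y| ≤ K0 := Real.exp_le_exp.mpr hy9
  have hEK : Real.exp y ≤ K0 := (Real.exp_le_exp.mpr (le_abs_self y)).trans hexp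
  have hr3 : |Real.exp y - (1 + y + y ^ 2 / 2)| ≤ K0 * (9 / 2) ^ 3 * N ^ 3 := by
    have h1 := Complex.norm_exp_sub_sum_le_norm_mul_exp (y : ℂ) 3
    have h2 : Complex.exp (y : ℂ) - ∑ k ∈ range 3, (y : ℂ) ^ k / (k.factorial : ℂ) =
        ((Real.exp y - (1 + y + y ^ 2 / 2) : ℝ) : ℂ) := by
      simp only [Finset.sum_range_succ, Finset.sum_range_zero, Nat.factorial]
      push_cast
      ring
    rw [h2, Complex.norm_real, Complex.norm_real, Real.norm_eq_abs, Real.norm_eq_abs] at h1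
    calc |Real.exp y - (1 + y + y ^ 2 / 2)| ≤ |y| ^ 3 * Real.exp |y| := h1
      _ ≤ (9 / 2 * N) ^ 3 * K0 := by gcongr
      _ = K0 * (9 / 2) ^ 3 * N ^ 3 := by ring
  have hr1 : |Real.exp y - 1| ≤ 9 / 2 * K0 * N := by
    have h1 := Complex.norm_exp_sub_sum_le_norm_mul_exp (y : ℂ) 1
    have h2 : Complex.exp (y : ℂ) - ∑ k ∈ range 1, (y : ℂ) ^ k / (k.factorial : ℂ) =
        ((Real.exp y - 1 : ℝ) : ℂ) := by
      simp only [Finset.sum_range_succ, Finset.sum_range_zero, Nat.factorial]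
      push_cast
      ring
    rw [h2, Complex.norm_real, Complex.norm_real, Real.norm_eq_abs, Real.norm_eq_abs] at h1
    calc |Real.exp y - 1| ≤ |y| ^ 1 * Real.exp |y| := h1
      _ ≤ (9 / 2 * N) ^ 1 * K0 := by gcongr
      _ = 9 / 2 * K0 * N := by ring
  set Tu : ℝ := TJ (Fin K × Fin 2) (u0 K) h h with hTu
  set Th : ℝ := TJ (Fin K × Fin 2) h h h with hTh
  have hQ : Q5 K h = 3 * N ^ 2 - 6 * Tu / q + 9 * a ^ 2 := by
    unfold Q5
    rw [← hN2]
  have key : TJ (Fin K × Fin 2) (u0 K + h) (u0 K + h) (u0 K + h) * Real.exp y / q -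
      (1 - Q5 K h / 2) =
      (9 / 8 * N ^ 4 + 3 / 2 * a * y ^ 2 +
        (1 + 3 * a) * (Real.exp y - (1 + y + y ^ 2 / 2))) +
      3 * (Tu / q) * (Real.exp y - 1) + Th / q * Real.exp y := by
    rw [hP, hQ]
    generalize hX : Real.exp y = X
    rw [hy]
    field_simp
    ring
  rw [key]
  have hw : |Tu| ≤ C * N ^ 2 := by
    refine (hTb (u0 K) h h).trans (le_of_eq ?_)
    rw [hu, Real.sqrt_one, ← hN]
    ring
  have hv : |Th| ≤ C * N ^ 3 := by
    refine (hTb h h h).trans (le_of_eq ?_)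
    rw [← hN]
    ring
  have hN4 : N ^ 4 ≤ N ^ 3 := by
    have : N ^ 4 = N ^ 3 * N := by ring
    rw [this]
    nlinarith [pow_nonneg hN0 3]
  have b1 : |9 / 8 * N ^ 4 + 3 / 2 * a * y ^ 2 +
      (1 + 3 * a) * (Real.exp y - (1 + y + y ^ 2 / 2))| ≤
      (9 / 8 + 3 / 2 * (9 / 2) ^ 2 + 4 * (K0 * (9 / 2) ^ 3)) * N ^ 3 := by
    have c1 : |9 / 8 * N ^ 4| ≤ 9 / 8 * N ^ 3 := by
      rw [abs_of_nonneg (by positivity)]
      linarith
    have c2 : |3 / 2 * a * y ^ 2| ≤ 3 / 2 * (9 / 2) ^ 2 * N ^ 3 := by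
      rw [abs_mul, abs_mul, abs_pow, abs_of_pos (by norm_num : (0 : ℝ) < 3 / 2)]
      calc 3 / 2 * |a| * |y| ^ 2 ≤ 3 / 2 * N * (9 / 2 * N) ^ 2 := by gcongr
        _ = 3 / 2 * (9 / 2) ^ 2 * N ^ 3 := by ring
    have c3 : |(1 + 3 * a) * (Real.exp y - (1 + y + y ^ 2 / 2))| ≤
        4 * (K0 * (9 / 2) ^ 3) * N ^ 3 := by
      rw [abs_mul]
      have d1 : |1 + 3 * a| ≤ 4 := by
        rw [abs_le] at haN ⊢
        constructor <;> linarith [haN.1, haN.2]
      calc |1 + 3 * a| * |Real.exp y - (1 + y + y ^ 2 / 2)| ≤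
          4 * (K0 * (9 / 2) ^ 3 * N ^ 3) := by gcongr
        _ = 4 * (K0 * (9 / 2) ^ 3) * N ^ 3 := by ring
    calc _ ≤ |9 / 8 * N ^ 4| + |3 / 2 * a * y ^ 2| +
          |(1 + 3 * a) * (Real.exp y - (1 + y + y ^ 2 / 2))| := abs_add_three _ _ _
      _ ≤ 9 / 8 * N ^ 3 + 3 / 2 * (9 / 2) ^ 2 * N ^ 3 + 4 * (K0 * (9 / 2) ^ 3) * N ^ 3 := by
          linarith
      _ = _ := by ring
  have b2 : |3 * (Tu / q) * (Real.exp y - 1)| ≤ 3 * (C / q) * (9 / 2 * K0) * N ^ 3 := by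
    rw [abs_mul, abs_mul, abs_div, abs_of_pos hq, abs_of_pos (by norm_num : (0 : ℝ) < 3)]
    calc 3 * (|Tu| / q) * |Real.exp y - 1| ≤
        3 * (C * N ^ 2 / q) * (9 / 2 * K0 * N) := by gcongr
      _ = 3 * (C / q) * (9 / 2 * K0) * N ^ 3 := by ring
  have b3 : |Th / q * Real.exp y| ≤ C / q * K0 * N ^ 3 := by
    rw [abs_mul, abs_div, abs_of_pos hq, abs_of_pos (Real.exp_pos _)]
    calc |Th| / q * Real.exp y ≤ C * N ^ 3 / q * K0 := by gcongr
      _ = C / q * K0 * N ^ 3 := by ring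
  refine (abs_add_three _ _ _).trans ?_
  calc _ ≤ (9 / 8 + 3 / 2 * (9 / 2) ^ 2 + 4 * (K0 * (9 / 2) ^ 3)) * N ^ 3 +
        3 * (C / q) * (9 / 2 * K0) * N ^ 3 + C / q * K0 * N ^ 3 := by
          linarith [b1, b2, b3]
    _ = _ := by ring

end Pool.Agent.Helper10.T5
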